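import Pool.Agent.helper29.JT.ASM2

/-!
# Project JT (MP_ebc808_nt): the assembly
-/

set_option autoImplicit false

open Finset
open Pool.Agent.Lib.BrunHooley (Z)

namespace Pool.Agent.helper7.JT

open OC (J hs cs PA P5 Exc Hit one_add_J_nonneg one_add_J_le exists_level level_log log_large
  log_div_large eventually_log_pow)

/-- **Joint parity in residue classes modulo powers of 2.** -/
theorem joint_class (nh h₀ : ℕ) (dsh : Fin nh → ℕ) (hd : ∀ h, 1 ≤ dsh h ∧ dsh h ≤ h₀)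
    (_hinj : Function.Injective dsh) (i c : ℕ) :
    ∃ κ : ℝ, 0 < κ ∧ ∃ X₀ : ℕ, ∀ X : ℕ, X₀ ≤ X →
      κ * √X * Real.log X / (Real.log (Real.log X)) ^ 3 ≤
        (((range (X + 1)).filter fun n => n % 2 ^ i = c % 2 ^ i ∧ PJ h₀ dsh n = 1).card : ℝ) := by
  obtain ⟨Cu₀, hCu₀, X₁, hup⟩ := OmJ_upper
  obtain ⟨cl, hcl, X₂, hlo⟩ := low1 (i + 3) (by omega) h₀
  have hCu1 : 1 ≤ max Cu₀ 1 := le_max_right _ _
  have hCu0 : 0 < max Cu₀ 1 := by linarith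
  obtain ⟨c₁, hc₁, hcCu⟩ : ∃ c₁ : ℝ, 0 < c₁ ∧ c₁ * max Cu₀ 1 = cl / 2 :=
    ⟨cl / 2 / max Cu₀ 1, by positivity, div_mul_cancel₀ _ hCu0.ne'⟩
  obtain ⟨CD, C₁, c₀, hc₀, X₃, hset⟩ := jsetup nh 3 (h₀ + 1) (c₁ / 4) (by positivity)
  obtain ⟨B, Cβ, hCβ, hsieve⟩ := sieve_factor2 CD
  obtain ⟨X₄, hX₄⟩ := eventually_log_pow 8 (3 ^ 8)
  obtain ⟨X₅, hX₅⟩ := log_large (6 + (64 * (((B + 3 : ℕ) : ℝ) + 1) * (CD + 1)) ^ 2 + 8 * h₀)
  obtain ⟨X₆, hX₆⟩ := log_div_large c₀ hc₀ (2 ^ (i + 3))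
  refine ⟨c₁ / 2 * max Cu₀ 1 * c₀ /
    (2 ^ CD * Real.exp CD * 5 * Cβ * (CD + 1) * (32 * (((B + 3 : ℕ) : ℝ) + 1))),
    by positivity, max (max (max X₁ X₂) (max X₃ X₄)) (max (max X₅ X₆)
    (max (2 ^ (16 * (B + 3 + 1))) (max (8 * (2 * h₀ + 2)) (2 ^ 16)))), fun X hX => ?_⟩
  simp only [max_le_iff] at hX
  obtain ⟨⟨⟨b1, b2⟩, b3, b4⟩, ⟨b5, b6⟩, b7, b8, hX16⟩ := hX
  have hX0 : 0 < X := lt_of_lt_of_le (by norm_num) hX16
  have hlog := hX₅ X b5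
  have hlog8 := hX₄ X b4
  have hBpos : (0 : ℝ) ≤ (64 * (((B + 3 : ℕ) : ℝ) + 1) * (CD + 1)) ^ 2 := by positivity
  have hh0 : (0 : ℝ) ≤ 8 * h₀ := by positivity
  have hx6 : 6 ≤ Real.log X := by linarith
  have hx0 : 0 < Real.log X := by linarith
  obtain ⟨d⟩ := hset X b3
  -- the sieving level
  obtain ⟨r, hr1, hr2⟩ := exists_level (B + 3) X b7
  have hr3 := level_log (B + 3) X r hX0 hr2
  obtain ⟨haD, har⟩ := ASM_level (B := B + 3) (by linarith) hr3 d.a_le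
  have hZ1 : 1 ≤ Z r := by unfold Z; exact Nat.one_le_two_pow
  have hrB : Z r ^ (16 * (B + 1)) ≤ X :=
    (Nat.pow_le_pow_right hZ1 (by omega)).trans hr1
  have hr64 : Z r ^ 64 ≤ X := (Nat.pow_le_pow_right hZ1 (by omega)).trans hr1
  have hrX : 2 ^ 2 ^ r ≤ X := by
    calc 2 ^ 2 ^ r = Z r := rfl
      _ ≤ Z r ^ 64 := Nat.le_self_pow (by omega) _
      _ ≤ X := hr64
  have ha1 : 1 ≤ d.a := by
    by_contra h0
    have h1 : d.a = 0 := by omega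
    have h2 := d.two_log_le (by linarith)
    rw [h1, pow_zero] at h2
    linarith
  have hμi : i + 3 ≤ d.μ := by
    have h1 := (hX₆ X b6).trans d.μ_ge
    by_contra hlt
    push Not at hlt
    have : (2 : ℝ) ^ d.μ < 2 ^ (i + 3) := pow_lt_pow_right₀ (by norm_num) hlt
    linarith
  -- the residue classes
  have hc' : h₀ ≤ c + 2 ^ i * h₀ := by
    have : h₀ ≤ 2 ^ i * h₀ := Nat.le_mul_of_pos_left _ (by positivity)
    omega
  have hcc : (c + 2 ^ i * h₀) % 2 ^ i = c % 2 ^ i := by simp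
  have hres : ∀ T ∈ Famj d.L₀ d.K₀, ∃ b : ℕ, b % 2 = 1 ∧ mdj d.𝒟 T * 5 * b ≡
      8 * (c + 2 ^ i * h₀ - h₀) + (4 ^ d.μ - 1) / 3 [MOD 2 ^ (i + 3)] :=
    fun T hT => d.exists_b hT i _
  choose! bT hbT using hres
  have hβ : 0 ≤ Cβ * d.a / 2 ^ r := by positivity
  have key := JData.main_app hc₁ hCu1 hβ d dsh hd hX16 b8 hx6 hlog8 i c (c + 2 ^ i * h₀) r
    (by omega) har hrX hc' hcc bT (fun T hT => (hbT T hT).2)
    (fun n hn hcs T hT T' hT' => d.sieve_app hsieve hX16 hx6 hlog8 r hrB hr64 ha1 har hT hT'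
      (fun p => dsh p.1) (2 ^ (i + 3)) (bT T) h₀ n hn hcs)
    (fun T hT T' hT' => d.upper_app (hup X b1) (by linarith) hT hT' (fun p => dsh p.1)
      (fun p => hd p.1) (2 ^ (i + 3)) (bT T))
    (by
      rw [← mul_assoc, hcCu]
      exact d.lower_app hcl (hlo X b2) (by linarith) (fun p => dsh p.1) (fun p => hd p.1) bT
        (fun T hT => (hbT T hT).1))
  refine (le_of_eq ?_).trans (ASM_calc (B := B + 3) hX0 (by linarith) hc₁ hCu0 hc₀ hCβ hr3 haD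
    d.μ_ge (Nat.cast_nonneg _) key)
  rfl

end Pool.Agent.helper7.JT
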