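import Pool.Agent.helper7.JT.J5
import Pool.Agent.helper7.JT.J9
import Pool.Agent.helper51.JT.UP
import Pool.Agent.helper61.JT.YC
import Pool.Agent.helper79.JT.HK
import Pool.Agent.helper91.JT.LOW
import Pool.Agent.helper7.OC.C13

/-!
# Project JT (MP_ebc808_nt): the assembly, preparations
-/

set_option autoImplicit false

open Finset
open Pool.Agent.Lib.BrunHooley (Z)

namespace Pool.Agent.helper7.JT

open OC (J hs cs PA P5 Exc Hit one_add_J_nonneg one_add_J_le)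

lemma mem_OmJ {ι : Type} {X D₀ m b : ℕ} {sh : ι → ℕ} {T' : ι → Finset ℕ} {w : ℕ} :
    w ∈ OmJ X D₀ m b sh T' ↔ (∃ j p q, (Nat.log 2 X / 4 ≤ j ∧ j < Nat.log 2 X / 3) ∧
      ((2 ^ j < p ∧ p ≤ 2 * 2 ^ j) ∧ p.Prime ∧ p % m = 5 % m) ∧
      ((X / (2 ^ (j + 2) * D₀) < q ∧ q ≤ 2 * (X / (2 ^ (j + 2) * D₀))) ∧ q.Prime ∧ q % m = b % m) ∧
      p * q = w) ∧ Exact D₀ sh T' w := by
  classical
  unfold OmJ PP1 PP2
  rw [mem_filter, mem_biUnion]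
  refine and_congr_left fun _ => ?_
  constructor
  · rintro ⟨j, hj, h⟩
    rw [mem_image] at h
    obtain ⟨⟨p, q⟩, h1, h2⟩ := h
    rw [mem_product, mem_filter, mem_filter, mem_Ioc, mem_Ioc] at h1
    rw [mem_Ico] at hj
    exact ⟨j, p, q, hj, h1.1, h1.2, h2⟩
  · rintro ⟨j, p, q, hj, h1, h2, h3⟩
    refine ⟨j, mem_Ico.2 hj, mem_image.2 ⟨(p, q), ?_, h3⟩⟩
    rw [mem_product, mem_filter, mem_filter, mem_Ioc, mem_Ioc]
    exact ⟨h1, h2⟩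

/-- sizes -/
lemma ASM_sizes {X M D j : ℕ} (hX : 2 ^ 16 ≤ X) (hM : M ^ 32 ≤ X) (hD : D ≤ M)
    (hj1 : Nat.log 2 X / 4 ≤ j) (hj2 : j < Nat.log 2 X / 3) :
    M < 2 ^ j ∧ M * (2 ^ (j + 2) * D) ≤ X ∧ 2 * 2 ^ j * (2 ^ (j + 2) * D) ≤ X := by
  have hX0 : X ≠ 0 := by have : 0 < 2 ^ 16 := by norm_num
                         omega
  have hL : 16 ≤ Nat.log 2 X := Nat.le_log_of_pow_le (by norm_num) hX
  have hL1 : 2 ^ Nat.log 2 X ≤ X := Nat.pow_log_le_self 2 hX0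
  have hL2 : X < 2 ^ (Nat.log 2 X + 1) := Nat.lt_pow_succ_log_self (by norm_num) X
  set L := Nat.log 2 X with hLdef
  have h3 : 2 ^ (3 * (j + 1)) ≤ X := le_trans (Nat.pow_le_pow_right (by norm_num) (by omega)) hL1
  have hX3 : 2 ^ 48 ≤ X ^ 3 := by
    calc 2 ^ 48 = (2 ^ 16) ^ 3 := by norm_num
      _ ≤ X ^ 3 := Nat.pow_le_pow_left hX 3
  have hX6 : 2 ^ 96 ≤ X ^ 6 := by
    calc 2 ^ 96 = (2 ^ 16) ^ 6 := by norm_num
      _ ≤ X ^ 6 := Nat.pow_le_pow_left hX 6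
  have hX1 : 1 ≤ X := by omega
  have hD32 : D ^ 32 ≤ X := (Nat.pow_le_pow_left hD 32).trans hM
  refine ⟨?_, ?_, ?_⟩
  · refine lt_of_pow_lt_pow_left₀ 32 (by positivity) ?_
    calc M ^ 32 ≤ X := hM
      _ < 2 ^ (L + 1) := hL2
      _ ≤ 2 ^ (j * 32) := Nat.pow_le_pow_right (by norm_num) (by omega)
      _ = (2 ^ j) ^ 32 := pow_mul _ _ _
  · refine (Nat.pow_le_pow_iff_left (n := 48) (by norm_num)).1 ?_
    have e1 : (2 ^ (j + 2)) ^ 3 ≤ 8 * X := by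
      calc (2 ^ (j + 2)) ^ 3 = 8 * 2 ^ (3 * (j + 1)) := by
            rw [← pow_mul, show (8 : ℕ) = 2 ^ 3 by norm_num, ← pow_add]; congr 1; ring
        _ ≤ 8 * X := Nat.mul_le_mul_left _ h3
    calc (M * (2 ^ (j + 2) * D)) ^ 48 ≤ (M * (2 ^ (j + 2) * M)) ^ 48 :=
          Nat.pow_le_pow_left (Nat.mul_le_mul_left _ (Nat.mul_le_mul_left _ hD)) _
      _ = (M ^ 32) ^ 3 * ((2 ^ (j + 2)) ^ 3) ^ 16 := by ring
      _ ≤ X ^ 3 * (8 * X) ^ 16 :=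
          Nat.mul_le_mul (Nat.pow_le_pow_left hM 3) (Nat.pow_le_pow_left e1 16)
      _ = 2 ^ 48 * X ^ 19 := by ring
      _ ≤ X ^ 3 * X ^ 19 := Nat.mul_le_mul_right _ hX3
      _ = X ^ 22 := by ring
      _ ≤ X ^ 48 := Nat.pow_le_pow_right hX1 (by norm_num)
  · refine (Nat.pow_le_pow_iff_left (n := 96) (by norm_num)).1 ?_
    have e1 : (2 * 2 ^ j * 2 ^ (j + 2)) ^ 3 ≤ 8 * X ^ 2 := by
      calc (2 * 2 ^ j * 2 ^ (j + 2)) ^ 3 = 8 * (2 ^ (3 * (j + 1))) ^ 2 := by ring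
        _ ≤ 8 * X ^ 2 := Nat.mul_le_mul_left _ (Nat.pow_le_pow_left h3 2)
    calc (2 * 2 ^ j * (2 ^ (j + 2) * D)) ^ 96
        = ((2 * 2 ^ j * 2 ^ (j + 2)) ^ 3) ^ 32 * (D ^ 32) ^ 3 := by ring
      _ ≤ (8 * X ^ 2) ^ 32 * X ^ 3 :=
          Nat.mul_le_mul (Nat.pow_le_pow_left e1 32) (Nat.pow_le_pow_left hD32 3)
      _ = 2 ^ 96 * X ^ 67 := by ring
      _ ≤ X ^ 6 * X ^ 67 := Nat.mul_le_mul_right _ hX6
      _ = X ^ 73 := by ring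
      _ ≤ X ^ 96 := Nat.pow_le_pow_right hX1 (by norm_num)

/-- the size of the product -/
lemma ASM_prod_le {X D j p q : ℕ} (hp : p ≤ 2 * 2 ^ j)
    (hq : q ≤ 2 * (X / (2 ^ (j + 2) * D))) : D * (p * q) ≤ X := by
  calc D * (p * q) ≤ D * ((2 * 2 ^ j) * (2 * (X / (2 ^ (j + 2) * D)))) :=
        Nat.mul_le_mul_left _ (Nat.mul_le_mul hp hq)
    _ = (2 ^ (j + 2) * D) * (X / (2 ^ (j + 2) * D)) := by ring
    _ ≤ X := Nat.mul_div_le _ _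

lemma ASM_prod_mod_eight (S : Finset ℕ) (h : ∀ ℓ ∈ S, ℓ % 8 = 5) (he : Odd S.card) :
    (∏ ℓ ∈ S, ℓ) % 8 = 5 := by
  rw [Finset.prod_nat_mod, prod_congr rfl h, prod_const]
  obtain ⟨k, hk⟩ := he
  rw [hk, pow_succ, pow_mul, Nat.mul_mod, Nat.pow_mod]
  norm_num

section
variable {X nh N₀ CD C₁ : ℕ} {c₀ ε : ℝ} (d : JData X nh 3 N₀ CD C₁ c₀ ε)
  {T : Fin d.n → Finset ℕ} {T' : Fin nh × Fin (d.n + 1) → Finset ℕ}

/-- the primes of the shift 0 -/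
def JData.s0 (T : Fin d.n → Finset ℕ) : Finset ℕ := d.𝒟 ∪ univ.biUnion T

lemma JData.s0_prop (hT : T ∈ Famj d.L₀ d.K₀) :
    (∀ ℓ ∈ d.s0 T, ℓ.Prime ∧ ℓ % 8 = 5) ∧ (d.s0 T).card + 3 = 2 ^ (d.μ - 1) ∧
      mdj d.𝒟 T = ∏ ℓ ∈ d.s0 T, ℓ := by
  rw [mem_Famj] at hT
  have hdis : Disjoint d.𝒟 (univ.biUnion T) := by
    rw [disjoint_biUnion_right]
    exact fun i _ => disjoint_of_subset_right (hT i).1 (d.sys.disjD0 i).symm
  have hdis2 : ∀ i ∈ (univ : Finset (Fin d.n)), ∀ j ∈ (univ : Finset (Fin d.n)), i ≠ j →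
      Disjoint (T i) (T j) := fun i _ j _ hij =>
    disjoint_of_subset_left (hT i).1 (disjoint_of_subset_right (hT j).1 (d.sys.disj0 i j hij))
  refine ⟨?_, ?_, ?_⟩
  · intro ℓ hℓ
    unfold JData.s0 at hℓ
    rw [mem_union, mem_biUnion] at hℓ
    rcases hℓ with h | ⟨i, _, h⟩
    · exact ⟨(d.sys.primeD ℓ h).1, d.D_mod ℓ h⟩
    · exact ⟨(d.sys.prime0 i ℓ ((hT i).1 h)).1, (d.L₀_mod i ℓ ((hT i).1 h)).1⟩
  · unfold JData.s0
    rw [card_union_of_disjoint hdis, card_biUnion hdis2, sum_congr rfl fun i _ => (hT i).2]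
    exact d.card0
  · unfold mdj prj JData.s0
    rw [prod_union hdis, prod_biUnion hdis2]

lemma JData.four_le : 3 ≤ d.μ := by
  have h1 := d.card0
  have h2 := d.two_le_μ
  by_contra h
  have h3 : d.μ = 2 := by omega
  rw [h3] at h1
  norm_num at h1
  omega

lemma JData.md_mod (hT : T ∈ Famj d.L₀ d.K₀) : mdj d.𝒟 T % 8 = 5 := by
  obtain ⟨h1, h2, h3⟩ := d.s0_prop hT
  rw [h3]
  refine ASM_prod_mod_eight _ (fun ℓ hℓ => (h1 ℓ hℓ).2) ?_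
  obtain ⟨k, hk⟩ : ∃ k, d.μ = k + 3 := ⟨d.μ - 3, by have := d.four_le; omega⟩
  rw [hk, show k + 3 - 1 = k + 2 by omega, pow_add] at h2
  rw [Nat.odd_iff]; omega

/-- **The covering lemma** for the family `OmJ`. -/
lemma JData.cover_joint (dsh : Fin nh → ℕ) (h₀ : ℕ) (hd : ∀ h, 1 ≤ dsh h ∧ dsh h ≤ h₀)
    (hX : 2 ^ 16 ≤ X) (hXh : 8 * (2 * h₀ + 2) ≤ X) (i c b : ℕ) (hi : i + 3 ≤ 2 * d.μ)
    (hc : h₀ ≤ c) (hT : T ∈ Famj d.L₀ d.K₀) (hT' : T' ∈ Famj d.L₁ d.K₁)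
    (hb : mdj d.𝒟 T * 5 * b ≡ 8 * (c - h₀) + (4 ^ d.μ - 1) / 3 [MOD 2 ^ (i + 3)]) {w : ℕ}
    (hw : w ∈ OmJ X (mdj d.𝒟 T) (2 ^ (i + 3)) b (fun p => dsh p.1) T') :
    (∀ ℓ ∈ unj d.𝒟 T T', ¬ ℓ ∣ w) ∧ ∃ n : ℕ, (n % 2 ^ i = c % 2 ^ i ∧ PJ h₀ dsh n = 1) ∧
      n + h₀ ≤ X ∧ Hit (mdj d.𝒟 T) d.μ (Nat.sqrt (25 * X) / 2 ^ d.μ) (24 * ((n : ℤ) - h₀) - 1) w := by
  classical
  have hsz := d.size T hT T' hT'
  have hpos := d.sys.pos hT hT'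
  have hmd1 : 1 ≤ mdj d.𝒟 T := Nat.pos_of_mul_pos_left hpos |> fun h => by
    rcases Nat.eq_zero_or_pos (mdj d.𝒟 T) with h0 | h0
    · rw [h0, zero_mul] at hpos; omega
    · exact h0
  have hpr1 : 1 ≤ prj T' := by
    rcases Nat.eq_zero_or_pos (prj T') with h0 | h0
    · rw [h0, mul_zero] at hpos; omega
    · exact h0
  have hmdM : mdj d.𝒟 T ≤ mdj d.𝒟 T * prj T' := Nat.le_mul_of_pos_right _ hpr1
  rw [mem_OmJ] at hw
  obtain ⟨⟨j, p, q, ⟨hj1, hj2⟩, ⟨⟨hp1, hp2⟩, hpp, hpm⟩, ⟨⟨hq1, hq2⟩, hqp, hqm⟩, hpq⟩, hex⟩ := hw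
  obtain ⟨z1, z2, z3⟩ := ASM_sizes hX hsz hmdM hj1 hj2
  have hden : 0 < 2 ^ (j + 2) * mdj d.𝒟 T := by positivity
  have hMq : mdj d.𝒟 T * prj T' < q := lt_of_le_of_lt ((Nat.le_div_iff_mul_le hden).2 z2) hq1
  have hMp : mdj d.𝒟 T * prj T' < p := lt_trans z1 hp1
  have hpq' : p < q := lt_of_le_of_lt (hp2.trans ((Nat.le_div_iff_mul_le hden).2 z3)) hq1
  have hle : ∀ ℓ ∈ unj d.𝒟 T T', ℓ ≤ mdj d.𝒟 T * prj T' := fun ℓ hℓ => by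
    refine Nat.le_of_dvd hpos ?_
    rw [d.sys.md_eq hT hT']
    exact dvd_prod_of_mem _ hℓ
  obtain ⟨s1, s2, s3⟩ := d.s0_prop hT
  have hsub : ∀ ℓ ∈ d.s0 T, ℓ ∈ unj d.𝒟 T T' := by
    intro ℓ hℓ
    unfold JData.s0 at hℓ
    unfold unj
    rw [mem_union] at hℓ ⊢
    rcases hℓ with h | h
    · exact Or.inl h
    · exact Or.inr (mem_union_left _ h)
  refine ⟨fun ℓ hℓ hdvd => ?_, ?_⟩
  · have h1 := hle ℓ hℓ
    have h2 := (d.sys.prime_un hT hT' hℓ).1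
    rw [← hpq] at hdvd
    rcases (Nat.Prime.dvd_mul h2).1 hdvd with h | h
    · have := (Nat.prime_dvd_prime_iff_eq h2 hpp).mp h; omega
    · have := (Nat.prime_dvd_prime_iff_eq h2 hqp).mp h; omega
  -- residue classes
  set jj := (4 ^ d.μ - 1) / 3 with hjj
  have hj3 : 3 * jj + 1 = 4 ^ d.μ := OC.three_mul_jj d.μ
  have h16 : 4 ^ d.μ % 16 = 0 := by
    obtain ⟨k, hk⟩ : ∃ k, d.μ = k + 2 := ⟨d.μ - 2, by have := d.two_le_μ; omega⟩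
    rw [hk, pow_add]; omega
  have hj5 : jj % 8 = 5 := by omega
  have hmd8 := d.md_mod hT
  have h8 : (8 : ℕ) ∣ 2 ^ (i + 3) := ⟨2 ^ i, by rw [pow_add]; ring⟩
  have hp8 : p % 8 = 5 := by
    have h3 := congrArg (· % 8) hpm
    simp only [Nat.mod_mod_of_dvd _ h8] at h3
    exact h3
  have hb8 : b % 8 = 5 := by
    have h1 : mdj d.𝒟 T * 5 * b % 8 = (8 * (c - h₀) + jj) % 8 := by
      have h3 := congrArg (· % 8) hb
      simp only [Nat.mod_mod_of_dvd _ h8] at h3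
      exact h3
    rw [Nat.mul_mod, Nat.mul_mod (mdj d.𝒟 T) 5, hmd8, show 5 * (5 % 8) % 8 = 1 by norm_num,
      one_mul] at h1
    omega
  have hq8 : q % 8 = 5 := by
    have h3 := congrArg (· % 8) hqm
    simp only [Nat.mod_mod_of_dvd _ h8] at h3
    rw [h3, hb8]
  have hNmod : mdj d.𝒟 T * w ≡ 8 * (c - h₀) + jj [MOD 2 ^ (i + 3)] := by
    refine Nat.ModEq.trans ?_ hb
    rw [← hpq, mul_assoc]
    exact Nat.ModEq.mul_left _ (Nat.ModEq.mul hpm hqm)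
  -- the covering
  have hqs : q ∉ d.s0 T := fun h => by have := hle q (hsub q h); omega
  have hps : p ∉ insert q (d.s0 T) := by
    rw [mem_insert, not_or]
    exact ⟨by omega, fun h => by have := hle p (hsub p h); omega⟩
  set S₀ := insert p (insert q (d.s0 T)) with hS₀
  have hprod : ∏ ℓ ∈ S₀, ℓ = mdj d.𝒟 T * w := by
    rw [hS₀, prod_insert hps, prod_insert hqs, ← s3, ← hpq]; ring
  set S : Fin nh → Finset ℕ := fun h => univ.biUnion fun k => T' (h, k) with hS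
  obtain ⟨n, y, hy1, hPJ, heq⟩ := cover d.μ h₀ nh d.two_le_μ dsh hd S₀
    (fun ℓ hℓ => by
      rw [hS₀, mem_insert, mem_insert] at hℓ
      rcases hℓ with rfl | rfl | h
      · exact ⟨hpp, hp8⟩
      · exact ⟨hqp, hq8⟩
      · exact s1 ℓ h)
    (by rw [hS₀, card_insert_of_notMem hps, card_insert_of_notMem hqs]; omega)
    S
    (fun h ℓ hℓ => by
      rw [hS, mem_biUnion] at hℓ
      obtain ⟨k, _, hk⟩ := hℓ
      have h1 := d.sys.prime1 (h, k) ℓ (((mem_Famj _ _ _).mp hT' (h, k)).1 hk)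
      have h2 := hex (h, k) ℓ hk
      rw [hprod]
      exact ⟨h1.1, by omega, h2⟩)
    (fun h => by
      have hT'' := (mem_Famj _ _ _).mp hT'
      rw [hS]
      simp only
      rw [card_biUnion (fun k _ k' _ hkk => disjoint_of_subset_left (hT'' _).1
        (disjoint_of_subset_right (hT'' _).1 (d.sys.disj1 _ _ (fun he => hkk (by
          have := congrArg Prod.snd he; exact this))))),
        sum_congr rfl fun k _ => (hT'' (h, k)).2]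
      exact d.card1 h)
  rw [hprod] at heq
  have hN : mdj d.𝒟 T * w ≤ X := by
    rw [← hpq]; exact ASM_prod_le hp2 hq2
  have hy4 : 1 ≤ (2 ^ d.μ * y) ^ 2 := Nat.one_le_pow _ _ (by positivity)
  refine ⟨n, ⟨?_, hPJ⟩, by omega, y, ?_, ?_⟩
  · have h1 : (2 ^ (i + 3) : ℤ) ∣ (mdj d.𝒟 T * w : ℕ) - ((8 * (c - h₀) + jj : ℕ) : ℤ) := by
      have := Nat.modEq_iff_dvd.mp hNmod.symm
      exact_mod_cast this
    have h4μ : (2 ^ (i + 3) : ℤ) ∣ 4 ^ d.μ := by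
      rw [show (4 : ℤ) = 2 ^ 2 by norm_num, ← pow_mul]
      exact pow_dvd_pow _ hi
    have hcc : ((c - h₀ : ℕ) : ℤ) = c - h₀ := by rw [Nat.cast_sub hc]
    have e1 : 3 * ((mdj d.𝒟 T * w : ℕ) : ℤ) + 24 * h₀ + 1 = 24 * (n : ℤ) + 4 ^ d.μ * (y : ℤ) ^ 2 := by
      have : ((3 * (mdj d.𝒟 T * w) + 24 * h₀ + 1 : ℕ) : ℤ) = ((24 * n + (2 ^ d.μ * y) ^ 2 : ℕ) : ℤ) := by
        rw [heq]
      push_cast at this ⊢
      rw [show (4 : ℤ) ^ d.μ = (2 ^ d.μ) ^ 2 by rw [← pow_mul, mul_comm, pow_mul]; norm_num]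
      linarith
    have e2 : (3 * (jj : ℤ) + 1) = 4 ^ d.μ := by exact_mod_cast hj3
    have h2 : (2 ^ (i + 3) : ℤ) ∣ 24 * ((n : ℤ) - c) := by
      have e3 : 24 * ((n : ℤ) - c) = 3 * (((mdj d.𝒟 T * w : ℕ) : ℤ) - ((8 * (c - h₀) + jj : ℕ) : ℤ))
          + 4 ^ d.μ * (1 - (y : ℤ) ^ 2) := by
        push_cast [hcc] at e1 ⊢
        linarith
      rw [e3]
      exact dvd_add (Dvd.dvd.mul_left h1 _) (Dvd.dvd.mul_right h4μ _)
    have h3 : (2 ^ i : ℤ) ∣ 3 * ((n : ℤ) - c) := by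
      have e4 : (2 : ℤ) ^ (i + 3) = 8 * 2 ^ i := by rw [pow_add]; ring
      have e5 : 24 * ((n : ℤ) - c) = 8 * (3 * ((n : ℤ) - c)) := by ring
      rw [e4, e5] at h2
      exact (mul_dvd_mul_iff_left (by norm_num)).mp h2
    have h4 : (2 ^ i : ℤ) ∣ (n : ℤ) - c := by
      refine IsCoprime.dvd_of_dvd_mul_left ?_ h3
      exact IsCoprime.pow_left (by norm_num)
    have h5 : c ≡ n [MOD 2 ^ i] := Nat.modEq_iff_dvd.mpr (by exact_mod_cast h4)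
    exact h5.symm
  · rw [mem_Icc, Nat.le_div_iff_mul_le (by positivity), Nat.le_sqrt']
    refine ⟨hy1, ?_⟩
    rw [mul_comm y]
    omega
  · have : ((3 * (mdj d.𝒟 T * w) + 24 * h₀ + 1 : ℕ) : ℤ) = ((24 * n + (2 ^ d.μ * y) ^ 2 : ℕ) : ℤ) := by
      rw [heq]
    push_cast at this
    linarith

end

end Pool.Agent.helper7.JT
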