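import Pool.Agent.helper29.JT.ASM0

/-!
# Project JT (MP_ebc808_nt): the assembly, applications of the modules
-/

set_option autoImplicit false

open Finset
open Pool.Agent.Lib.BrunHooley (Z)

namespace Pool.Agent.helper7.JT

open OC (J hs cs PA P5 Exc Hit one_add_J_nonneg one_add_J_le exists_level level_log log_large
  log_div_large eventually_log_pow)

lemma asm_exists_residue {q p : ℕ} (hpq : p.Coprime q) (hq : 1 < q) (a : ℕ) :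
    ∃ c, p * c ≡ a [MOD q] := by
  obtain ⟨d, _, hd⟩ := Nat.exists_mul_mod_eq_one_of_coprime hpq hq
  refine ⟨d * a, ?_⟩
  have h1 : p * d ≡ 1 [MOD q] := by
    rw [Nat.ModEq, hd, Nat.mod_eq_of_lt hq]
  have := h1.mul_right a
  rwa [one_mul, mul_assoc] at this

section
variable {X nh N₀ CD C₁ : ℕ} {c₀ ε : ℝ} (d : JData X nh 3 N₀ CD C₁ c₀ ε)
  {T : Fin d.n → Finset ℕ} {T' : Fin nh × Fin (d.n + 1) → Finset ℕ}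

lemma JData.pow_μ_le (hx : 6 ≤ Real.log X) : (2 : ℝ) ^ d.μ ≤ 3 * Real.log X := by
  have h1 := d.card0
  have h2 := d.card_le
  have h3 := d.two_le_μ
  have h4 : (0 : ℝ) ≤ ∑ i, (d.K₁ i : ℝ) := sum_nonneg fun _ _ => Nat.cast_nonneg _
  have h5 : ((d.𝒟.card : ℝ) + ∑ i, (d.K₀ i : ℝ)) + 3 = 2 ^ (d.μ - 1) := by exact_mod_cast h1
  have h6 : (2 : ℝ) ^ d.μ = 2 * 2 ^ (d.μ - 1) := by
    rw [← pow_succ']; congr 1; omega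
  push_cast at h2
  rw [h6]
  linarith

lemma JData.md_mul_le (hx : 6 ≤ Real.log X) (h8 : 3 ^ 8 * (Real.log X) ^ 8 ≤ X)
    (hT : T ∈ Famj d.L₀ d.K₀) (hT' : T' ∈ Famj d.L₁ d.K₁) (A : ℕ) (hA : A ^ 16 ≤ X) :
    A * (mdj d.𝒟 T * prj T') ≤ Nat.sqrt (25 * X) / 2 ^ d.μ := by
  have hsz := d.size T hT T' hT'
  set M := mdj d.𝒟 T * prj T' with hM
  have hμ8 : (2 ^ d.μ) ^ 8 ≤ X := by
    have h1 : ((2 : ℝ) ^ d.μ) ^ 8 ≤ (3 * Real.log X) ^ 8 :=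
      pow_le_pow_left₀ (by positivity) (d.pow_μ_le hx) 8
    have h2 : ((2 : ℝ) ^ d.μ) ^ 8 ≤ X := by
      refine h1.trans (le_trans (le_of_eq ?_) h8)
      rw [mul_pow]
    exact_mod_cast h2
  rw [Nat.le_div_iff_mul_le (by positivity), Nat.le_sqrt']
  refine le_trans ?_ (Nat.le_mul_of_pos_left X (by norm_num : 0 < 25))
  refine (Nat.pow_le_pow_iff_left (n := 16) (by norm_num)).1 ?_
  have hX0 : 1 ≤ X := by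
    rcases Nat.eq_zero_or_pos X with h | h
    · rw [h] at hx; norm_num at hx
    · exact h
  calc ((A * M * 2 ^ d.μ) ^ 2) ^ 16 = (A ^ 16) ^ 2 * (M ^ 32 * ((2 ^ d.μ) ^ 8) ^ 4) := by ring
    _ ≤ X ^ 2 * (X * X ^ 4) :=
        Nat.mul_le_mul (Nat.pow_le_pow_left hA 2) (Nat.mul_le_mul hsz (Nat.pow_le_pow_left hμ8 4))
    _ = X ^ 7 := by ring
    _ ≤ X ^ 16 := Nat.pow_le_pow_right hX0 (by norm_num)

lemma JData.two_log_le (hx : 2 ≤ Real.log X) : 2 * Real.log X ≤ 2 ^ d.a := by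
  refine le_trans ?_ d.a_ge
  calc 2 * Real.log X ≤ Real.log X ^ 2 := by nlinarith
    _ = Real.log X ^ (2 : ℝ) := by norm_num
    _ ≤ _ := Real.rpow_le_rpow_of_exponent_le (by linarith) (by norm_num)

lemma JData.hs_le (S : Finset ℕ) (hS : ∀ ℓ ∈ S, 2 ^ d.a < ℓ) : hs S ≤ S.card / 2 ^ d.a := by
  have h1 : ∀ ℓ ∈ S, 1 / (ℓ : ℝ) ≤ 1 / 2 ^ d.a := by
    intro ℓ hℓ
    refine one_div_le_one_div_of_le (by positivity) ?_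
    exact_mod_cast (hS ℓ hℓ).le
  unfold hs
  refine (sum_le_sum h1).trans (le_of_eq ?_)
  rw [sum_const, nsmul_eq_mul, mul_one_div]

lemma JData.sumK_le : (∑ i, (d.K₀ i : ℝ)) + ∑ i, (d.K₁ i : ℝ) ≤ Real.log X := by
  have h2 := d.card_le
  push_cast at h2
  have : (0 : ℝ) ≤ d.𝒟.card := Nat.cast_nonneg _
  linarith

lemma JData.hs_union_le (hx : 2 ≤ Real.log X) (hT : T ∈ Famj d.L₀ d.K₀)
    (hT' : T' ∈ Famj d.L₁ d.K₁) :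
    hs (univ.biUnion T ∪ univ.biUnion T') ≤ 1 / 2 ∧ ∑ p, hs (T' p) ≤ 1 / 2 := by
  have hT0 := (mem_Famj _ _ _).mp hT
  have hT1 := (mem_Famj _ _ _).mp hT'
  have ha := d.two_log_le hx
  have hK := d.sumK_le
  have hK0 : (0 : ℝ) ≤ ∑ i, (d.K₀ i : ℝ) := sum_nonneg fun _ _ => Nat.cast_nonneg _
  constructor
  · refine (d.hs_le _ ?_).trans ?_
    · intro ℓ hℓ
      rw [mem_union, mem_biUnion, mem_biUnion] at hℓ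
      rcases hℓ with ⟨i, _, h⟩ | ⟨i, _, h⟩
      · exact (d.L₀_mod i ℓ ((hT0 i).1 h)).2
      · exact d.L₁_gt i ℓ ((hT1 i).1 h)
    · have h1 : (univ.biUnion T ∪ univ.biUnion T').card ≤ ∑ i, d.K₀ i + ∑ i, d.K₁ i := by
        refine (card_union_le _ _).trans (Nat.add_le_add ?_ ?_)
        · exact card_biUnion_le.trans (le_of_eq (sum_congr rfl fun i _ => (hT0 i).2))
        · exact card_biUnion_le.trans (le_of_eq (sum_congr rfl fun i _ => (hT1 i).2))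
      have h2 : ((univ.biUnion T ∪ univ.biUnion T').card : ℝ) ≤
          (∑ i, (d.K₀ i : ℝ)) + ∑ i, (d.K₁ i : ℝ) := by exact_mod_cast h1
      rw [div_le_div_iff₀ (by positivity) (by norm_num)]
      linarith
  · have h1 : ∀ p, hs (T' p) ≤ (d.K₁ p : ℝ) / 2 ^ d.a := by
      intro p
      have h := d.hs_le (T' p) (fun ℓ hℓ => d.L₁_gt p ℓ ((hT1 p).1 hℓ))
      rwa [(hT1 p).2] at h
    refine (sum_le_sum fun p _ => h1 p).trans ?_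
    rw [← sum_div, div_le_div_iff₀ (by positivity) (by norm_num)]
    linarith

/-- no prime of the other shifts divides the modulus of the shift 0 -/
lemma JData.not_dvd_md (hT : T ∈ Famj d.L₀ d.K₀) {i : Fin nh × Fin (d.n + 1)} {ℓ : ℕ}
    (hℓ : ℓ ∈ d.L₁ i) : ¬ ℓ ∣ mdj d.𝒟 T := by
  intro h
  obtain ⟨s1, _, s3⟩ := d.s0_prop hT
  have hp := (d.sys.prime1 i ℓ hℓ).1
  rw [s3] at h
  obtain ⟨ℓ', h1, h2⟩ := (Prime.dvd_finsetProd_iff hp.prime _).1 h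
  have h3 : ℓ = ℓ' := (Nat.prime_dvd_prime_iff_eq hp (s1 ℓ' h1).1).1 h2
  rw [← h3] at h1
  unfold JData.s0 at h1
  rw [mem_union, mem_biUnion] at h1
  rcases h1 with h1 | ⟨k, _, h1⟩
  · exact disjoint_left.1 (d.sys.disjD1 i) hℓ h1
  · exact disjoint_left.1 (d.sys.disj01 k i) (((mem_Famj _ _ _).mp hT k).1 h1) hℓ

lemma JData.md_pos (hT : T ∈ Famj d.L₀ d.K₀) : 1 ≤ mdj d.𝒟 T := by
  obtain ⟨s1, _, s3⟩ := d.s0_prop hT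
  rw [s3]
  exact Nat.one_le_iff_ne_zero.2 (prod_ne_zero_iff.2 fun ℓ hℓ => (s1 ℓ hℓ).1.ne_zero)

/-- the residue class of the large prime -/
lemma JData.exists_b (hT : T ∈ Famj d.L₀ d.K₀) (i v : ℕ) :
    ∃ b : ℕ, b % 2 = 1 ∧ mdj d.𝒟 T * 5 * b ≡ 8 * v + (4 ^ d.μ - 1) / 3 [MOD 2 ^ (i + 3)] := by
  have hmd8 := d.md_mod hT
  have hcop : Nat.Coprime (mdj d.𝒟 T * 5) (2 ^ (i + 3)) := by
    refine Nat.Coprime.pow_right _ ?_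
    rw [Nat.coprime_two_right, Nat.odd_iff]
    omega
  obtain ⟨b, hb⟩ := asm_exists_residue hcop
    (Nat.one_lt_two_pow (by omega)) (8 * v + (4 ^ d.μ - 1) / 3)
  refine ⟨b, ?_, hb⟩
  have hj3 : 3 * ((4 ^ d.μ - 1) / 3) + 1 = 4 ^ d.μ := OC.three_mul_jj d.μ
  have h16 : 4 ^ d.μ % 16 = 0 := by
    obtain ⟨k, hk⟩ : ∃ k, d.μ = k + 2 := ⟨d.μ - 2, by have := d.two_le_μ; omega⟩
    rw [hk, pow_add]; omega
  have h2 : (2 : ℕ) ∣ 2 ^ (i + 3) := dvd_pow_self _ (by omega)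
  have h1 : mdj d.𝒟 T * 5 * b % 2 = (8 * v + (4 ^ d.μ - 1) / 3) % 2 := by
    have h3 := congrArg (· % 2) hb
    simp only [Nat.mod_mod_of_dvd _ h2] at h3
    exact h3
  by_contra hb2
  have hb0 : b % 2 = 0 := by omega
  rw [Nat.mul_mod, hb0, mul_zero] at h1
  omega

/-- the prime factors of the multipliers are large -/
lemma JData.prime_factor_gt (hX : 2 ^ 16 ≤ X) (hT : T ∈ Famj d.L₀ d.K₀)
    (hT' : T' ∈ Famj d.L₁ d.K₁) (z : ℕ) (hz : z ^ 64 ≤ X) {m b : ℕ} (sh : Fin nh × Fin (d.n + 1) → ℕ)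
    {w : ℕ} (hw : w ∈ OmJ X (mdj d.𝒟 T) m b sh T') {ℓ : ℕ} (hℓ : ℓ.Prime) (hdvd : ℓ ∣ w) : z < ℓ := by
  have hsz := d.size T hT T' hT'
  have hmd1 := d.md_pos hT
  have hpos := d.sys.pos hT hT'
  have hpr1 : 1 ≤ prj T' := by
    rcases Nat.eq_zero_or_pos (prj T') with h0 | h0
    · rw [h0, mul_zero] at hpos; omega
    · exact h0
  rw [mem_OmJ] at hw
  obtain ⟨⟨j, p, q, ⟨hj1, hj2⟩, ⟨⟨hp1, hp2⟩, hpp, hpm⟩, ⟨⟨hq1, hq2⟩, hqp, hqm⟩, hpq⟩, hex⟩ := hw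
  -- apply the size lemma with the larger of the two numbers
  have hX0 : X ≠ 0 := by
    have : 0 < 2 ^ 16 := by norm_num
    omega
  have hmax : (max z (mdj d.𝒟 T)) ^ 32 ≤ X := by
    rcases le_total z (mdj d.𝒟 T) with h | h
    · rw [max_eq_right h]
      exact (Nat.pow_le_pow_left (Nat.le_mul_of_pos_right _ hpr1) _).trans hsz
    · rw [max_eq_left h]
      refine le_trans ?_ hz
      rcases Nat.eq_zero_or_pos z with h0 | h0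
      · rw [h0]; norm_num
      · exact Nat.pow_le_pow_right h0 (by norm_num)
  obtain ⟨z1, z2, _⟩ := ASM_sizes hX hmax (le_max_right _ _) hj1 hj2
  have hden : 0 < 2 ^ (j + 2) * mdj d.𝒟 T := by positivity
  have hMq : max z (mdj d.𝒟 T) < q := lt_of_le_of_lt ((Nat.le_div_iff_mul_le hden).2 z2) hq1
  have hMp : max z (mdj d.𝒟 T) < p := lt_trans z1 hp1
  rw [← hpq] at hdvd
  rcases (Nat.Prime.dvd_mul hℓ).1 hdvd with h | h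
  · rw [(Nat.prime_dvd_prime_iff_eq hℓ hpp).mp h]
    exact lt_of_le_of_lt (le_max_left _ _) hMp
  · rw [(Nat.prime_dvd_prime_iff_eq hℓ hqp).mp h]
    exact lt_of_le_of_lt (le_max_left _ _) hMq

/-- the number of `y` -/
lemma JData.sieve_app {B : ℕ} {Cβ : ℝ}
    (hsieve : ∀ (r a μ Y u D₀ : ℕ) (𝒟 P Ω : Finset ℕ) (sf : ℕ → ℕ), 1 ≤ a → a ≤ 2 ^ r → 1 ≤ u →
    -2 ≤ cs (PA (2 ^ a) (2 ^ 2 ^ r)) (24 * u - 1) →
    (∀ ℓ ∈ 𝒟 ∪ P, ℓ.Prime ∧ 3 < ℓ) → Disjoint 𝒟 P → 𝒟.card ≤ CD → hs P ≤ 1 →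
    ∏ ℓ ∈ 𝒟 ∪ P, ℓ ≤ Y → Z r ^ B * 2 ^ r * ∏ ℓ ∈ 𝒟 ∪ P, ℓ ≤ a * Y →
    (∀ ℓ : ℕ, ℓ.Prime → ℓ ∣ D₀ → ℓ ∈ 𝒟 ∪ P) →
    (∀ w ∈ Ω, ∀ ℓ : ℕ, ℓ.Prime → ℓ ∣ w → Z r < ℓ) →
    (∀ w ∈ Ω, ∀ ℓ ∈ 𝒟 ∪ P, ℓ ∣ D₀ * w + 8 * sf ℓ) →
    (((Icc 1 Y).filter fun y : ℕ => ∃ w ∈ Ω,
        3 * ((D₀ : ℤ) * (w : ℤ)) = (24 * (u : ℤ) - 1) + (2 ^ μ * (y : ℤ)) ^ 2).card : ℝ)
      ≤ (Cβ * a / 2 ^ r) * (∏ ℓ ∈ 𝒟 ∪ P, (1 + J ℓ (24 * (u + sf ℓ) - 1))) *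
        ((Y : ℝ) / ∏ ℓ ∈ 𝒟 ∪ P, (ℓ : ℝ)))
    (hX : 2 ^ 16 ≤ X) (hx : 6 ≤ Real.log X) (h8 : 3 ^ 8 * (Real.log X) ^ 8 ≤ X)
    (r : ℕ) (hr : Z r ^ (16 * (B + 1)) ≤ X) (hr64 : Z r ^ 64 ≤ X) (ha1 : 1 ≤ d.a) (har : d.a ≤ 2 ^ r)
    (hT : T ∈ Famj d.L₀ d.K₀) (hT' : T' ∈ Famj d.L₁ d.K₁) (sh : Fin nh × Fin (d.n + 1) → ℕ)
    (m b h₀ n : ℕ) (hn : h₀ + 1 ≤ n)
    (hcs : -2 ≤ cs (PA (2 ^ d.a) (2 ^ 2 ^ r)) (24 * (n - h₀) - 1)) :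
    (((Icc 1 (Nat.sqrt (25 * X) / 2 ^ d.μ)).filter fun y : ℕ =>
      ∃ w ∈ OmJ X (mdj d.𝒟 T) m b sh T', 3 * ((mdj d.𝒟 T : ℤ) * (w : ℤ)) =
        (24 * ((n : ℤ) - h₀) - 1) + (2 ^ d.μ * (y : ℤ)) ^ 2).card : ℝ)
      ≤ (Cβ * d.a / 2 ^ r) * (∏ ℓ ∈ unj d.𝒟 T T', (1 + J ℓ (24 * (n - h₀ + sfj sh d.L₁ ℓ) - 1))) *
        (((Nat.sqrt (25 * X) / 2 ^ d.μ : ℕ) : ℝ) / ∏ ℓ ∈ unj d.𝒟 T T', (ℓ : ℝ)) := by
  have hX0 : 0 < X := lt_of_lt_of_le (by norm_num) hX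
  have hcast : ((n - h₀ : ℕ) : ℤ) = (n : ℤ) - h₀ := by rw [Nat.cast_sub (by omega)]
  have hdis := (d.sys.disjs hT hT').1
  have hYM := d.md_mul_le hx h8 hT hT' 1 (by rw [one_pow]; exact hX0)
  rw [one_mul, d.sys.md_eq hT hT'] at hYM
  have hZ16 : (Z r ^ (B + 1)) ^ 16 ≤ X := by
    rw [← pow_mul]; refine le_trans (le_of_eq ?_) hr; congr 1; ring
  have hYZ := d.md_mul_le hx h8 hT hT' _ hZ16
  rw [d.sys.md_eq hT hT'] at hYZ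
  have h2 : Z r ^ B * 2 ^ r * ∏ ℓ ∈ unj d.𝒟 T T', ℓ ≤ d.a * (Nat.sqrt (25 * X) / 2 ^ d.μ) := by
    have h1 : 2 ^ r ≤ Z r := by
      unfold Z
      exact Nat.pow_le_pow_right (by norm_num) Nat.lt_two_pow_self.le
    calc Z r ^ B * 2 ^ r * ∏ ℓ ∈ unj d.𝒟 T T', ℓ ≤ Z r ^ B * Z r * ∏ ℓ ∈ unj d.𝒟 T T', ℓ :=
          Nat.mul_le_mul_right _ (Nat.mul_le_mul_left _ h1)
      _ = Z r ^ (B + 1) * ∏ ℓ ∈ unj d.𝒟 T T', ℓ := by rw [pow_succ]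
      _ ≤ Nat.sqrt (25 * X) / 2 ^ d.μ := hYZ
      _ ≤ d.a * (Nat.sqrt (25 * X) / 2 ^ d.μ) := Nat.le_mul_of_pos_left _ ha1
  have h3 : ∀ ℓ : ℕ, ℓ.Prime → ℓ ∣ mdj d.𝒟 T → ℓ ∈ d.𝒟 ∪ (univ.biUnion T ∪ univ.biUnion T') := by
    intro ℓ hℓ hdvd
    obtain ⟨s1, _, s3⟩ := d.s0_prop hT
    rw [s3] at hdvd
    obtain ⟨ℓ', h1, h2⟩ := (Prime.dvd_finsetProd_iff hℓ.prime _).1 hdvd
    have h3 : ℓ = ℓ' := (Nat.prime_dvd_prime_iff_eq hℓ (s1 ℓ' h1).1).1 h2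
    rw [← h3] at h1
    unfold JData.s0 at h1
    rw [mem_union] at h1 ⊢
    rcases h1 with h1 | h1
    · exact Or.inl h1
    · exact Or.inr (mem_union_left _ h1)
  have h := hsieve r d.a d.μ (Nat.sqrt (25 * X) / 2 ^ d.μ) (n - h₀) (mdj d.𝒟 T) d.𝒟
    (univ.biUnion T ∪ univ.biUnion T') (OmJ X (mdj d.𝒟 T) m b sh T') (sfj sh d.L₁) ha1 har
    (by omega) hcs (fun ℓ hℓ => d.sys.prime_un hT hT' hℓ) hdis d.D_card
    ((d.hs_union_le (by linarith) hT hT').1.trans (by norm_num)) hYM h2 h3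
    (fun w hw ℓ hℓ hdvd => d.prime_factor_gt hX hT hT' (Z r) hr64 sh hw hℓ hdvd)
    (fun w hw ℓ hℓ => d.sys.dvd_shift hT hT' sh (mem_OmJ.1 hw).2 hℓ)
  rw [hcast] at h
  exact h

/-- upper bound of the family -/
lemma JData.upper_app {Cu : ℝ} (hup : ∀ (D₀ m b : ℕ) {ι : Type}
    [Fintype ι] [DecidableEq ι] (sh : ι → ℕ) (T' : ι → Finset ℕ), 1 ≤ D₀ →
    (D₀ * prj T') ^ 32 ≤ X → (∀ i, 1 ≤ sh i) → (∀ i, ∀ ℓ ∈ T' i, ℓ.Prime ∧ ¬ ℓ ∣ D₀ ∧ 8 * sh i < ℓ) →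
    (∀ i j, i ≠ j → Disjoint (T' i) (T' j)) → ∑ i, hs (T' i) ≤ 1 / 2 →
    ((OmJ X D₀ m b sh T').card : ℝ) ≤ Cu * (X / Real.log X) / (D₀ * prj T'))
    {h₀ : ℕ} (hx : 2 + 8 * h₀ ≤ Real.log X) (hT : T ∈ Famj d.L₀ d.K₀) (hT' : T' ∈ Famj d.L₁ d.K₁)
    (sh : Fin nh × Fin (d.n + 1) → ℕ) (hsh : ∀ p, 1 ≤ sh p ∧ sh p ≤ h₀) (m b : ℕ) :
    ((OmJ X (mdj d.𝒟 T) m b sh T').card : ℝ) ≤
      max Cu 1 * (X / Real.log X) / (mdj d.𝒟 T * prj T') := by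
  have hh0 : (0 : ℝ) ≤ h₀ := Nat.cast_nonneg _
  have hx2 : 2 ≤ Real.log X := by linarith
  refine (hup (mdj d.𝒟 T) m b sh T' (d.md_pos hT) (d.size T hT T' hT')
    (fun p => (hsh p).1) (fun p ℓ hℓ => ?_) (fun p p' hp => ?_)
    (d.hs_union_le hx2 hT hT').2).trans ?_
  · have hL := (((mem_Famj _ _ _).mp hT' p).1 hℓ)
    refine ⟨(d.sys.prime1 p ℓ hL).1, d.not_dvd_md hT hL, ?_⟩
    have h1 := d.two_log_le hx2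
    have h2 : ((2 ^ d.a : ℕ) : ℝ) < ℓ := by exact_mod_cast d.L₁_gt p ℓ hL
    have h3 : ((sh p : ℕ) : ℝ) ≤ h₀ := by exact_mod_cast (hsh p).2
    push_cast at h2
    have h4 : ((8 * sh p : ℕ) : ℝ) < (ℓ : ℝ) := by push_cast; linarith
    exact_mod_cast h4
  · exact disjoint_of_subset_left ((mem_Famj _ _ _).mp hT' p).1
      (disjoint_of_subset_right ((mem_Famj _ _ _).mp hT' p').1 (d.sys.disj1 p p' hp))
  · refine div_le_div_of_nonneg_right ?_ (by positivity)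
    exact mul_le_mul_of_nonneg_right (le_max_left _ _) (by positivity)

/-- lower bound of the families -/
lemma JData.lower_app {cl : ℝ} (hcl : 0 < cl) {k dmax : ℕ}
    (hlo : ∀ (D₀ b : ℕ) {ι : Type} [Fintype ι] [DecidableEq ι] (L : ι → Finset ℕ) (K : ι → ℕ)
      (sh : ι → ℕ),
    1 ≤ D₀ → b % 2 = 1 → (∀ i, 1 ≤ sh i ∧ sh i ≤ dmax) →
    (∀ T' ∈ Famj L K, (D₀ * prj T') ^ 32 ≤ X) →
    (∀ i, ∀ ℓ ∈ L i, ℓ.Prime ∧ ¬ ℓ ∣ D₀ ∧ (Real.log X) ^ (1600 : ℝ) ≤ ℓ) →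
    (∀ i j, i ≠ j → Disjoint (L i) (L j)) →
    (∀ i, (K i : ℝ) ≤ (Real.log X) ^ 10 * hs (L i)) → ∑ i, (K i : ℝ) ≤ Real.log X →
    EMj L K / 2 ≤ ∑ T' ∈ Famj L K, 1 / (prj T' : ℝ) →
    cl * (X / Real.log X) / D₀ * EMj L K ≤ ∑ T' ∈ Famj L K, ((OmJ X D₀ (2 ^ k) b sh T').card : ℝ))
    (hx : 2 ≤ Real.log X) (sh : Fin nh × Fin (d.n + 1) → ℕ) (hsh : ∀ p, 1 ≤ sh p ∧ sh p ≤ dmax)
    (bT : (Fin d.n → Finset ℕ) → ℕ) (hbT : ∀ T ∈ Famj d.L₀ d.K₀, bT T % 2 = 1) :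
    cl / 2 * (X / Real.log X) * (EMj d.L₀ d.K₀ * EMj d.L₁ d.K₁ / ∏ ℓ ∈ d.𝒟, (ℓ : ℝ)) ≤
      ∑ T ∈ Famj d.L₀ d.K₀, ∑ T' ∈ Famj d.L₁ d.K₁,
        ((OmJ X (mdj d.𝒟 T) (2 ^ k) (bT T) sh T').card : ℝ) := by
  have hx0 : 0 < Real.log X := by linarith
  have e1 : ∀ T ∈ Famj d.L₀ d.K₀, cl * (X / Real.log X) / (∏ ℓ ∈ d.𝒟, (ℓ : ℝ)) * EMj d.L₁ d.K₁ *
      (1 / (prj T : ℝ)) ≤ ∑ T' ∈ Famj d.L₁ d.K₁,
        ((OmJ X (mdj d.𝒟 T) (2 ^ k) (bT T) sh T').card : ℝ) := by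
    intro T hT
    have h1 := hlo (mdj d.𝒟 T) (bT T) d.L₁ d.K₁ sh (d.md_pos hT) (hbT T hT)
      hsh (fun T' hT' => d.size T hT T' hT') (fun p ℓ hℓ =>
        ⟨(d.sys.prime1 p ℓ hℓ).1, d.not_dvd_md hT hℓ, d.a_ge.trans (by
          exact_mod_cast (d.L₁_gt p ℓ hℓ).le)⟩)
      d.sys.disj1 d.ratio1 (by
        have h2 := d.sumK_le
        have hK0 : (0 : ℝ) ≤ ∑ i, (d.K₀ i : ℝ) := sum_nonneg fun _ _ => Nat.cast_nonneg _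
        linarith) d.EM₁_le
    refine le_trans (le_of_eq ?_) h1
    have : ((mdj d.𝒟 T : ℕ) : ℝ) = (∏ ℓ ∈ d.𝒟, (ℓ : ℝ)) * prj T := by
      unfold mdj; push_cast; rfl
    rw [this]
    have hpr : (prj T : ℝ) ≠ 0 := by
      intro h0
      have h3 := d.md_pos hT
      have h4 : ((mdj d.𝒟 T : ℕ) : ℝ) = 0 := by rw [this, h0, mul_zero]
      have h5 : mdj d.𝒟 T = 0 := by exact_mod_cast h4
      omega
    have hDD : (∏ ℓ ∈ d.𝒟, (ℓ : ℝ)) ≠ 0 := (Dpos d.sys).ne'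
    field_simp
  refine le_trans ?_ (sum_le_sum e1)
  rw [← mul_sum]
  have hD0 : (0 : ℝ) < ∏ ℓ ∈ d.𝒟, (ℓ : ℝ) := Dpos d.sys
  have hE1 := d.EM₁_pos
  calc cl / 2 * (X / Real.log X) * (EMj d.L₀ d.K₀ * EMj d.L₁ d.K₁ / ∏ ℓ ∈ d.𝒟, (ℓ : ℝ))
      = cl * (X / Real.log X) / (∏ ℓ ∈ d.𝒟, (ℓ : ℝ)) * EMj d.L₁ d.K₁ * (EMj d.L₀ d.K₀ / 2) := by
        ring
    _ ≤ _ := mul_le_mul_of_nonneg_left d.EM₀_le (by positivity)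

end

/-- the final computation -/
lemma ASM_calc {X r μ a CD B : ℕ} {c₁ Cu c₀ Cβ N x : ℝ} (hX : 0 < X)
    (hx0 : 1 < x) (hc₁ : 0 < c₁) (hCu : 0 < Cu) (hc₀ : 0 < c₀) (hCβ : 0 < Cβ)
    (hr : x ≤ 32 * (B + 1) * 2 ^ r) (ha : (a : ℝ) ≤ (CD + 1) * Real.log x)
    (hμ : c₀ * x / Real.log x ^ 2 ≤ 2 ^ μ) (hN : 0 ≤ N)
    (key : c₁ / 2 * (Cu * (X / x)) ≤ N * (Cβ * a / 2 ^ r * 2 ^ CD * Real.exp CD * (5 * √X / 2 ^ μ))) :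
    c₁ / 2 * Cu * c₀ / (2 ^ CD * Real.exp CD * 5 * Cβ * (CD + 1) * (32 * (B + 1))) * √X * x /
      Real.log x ^ 3 ≤ N := by
  have hXr : (0 : ℝ) < X := by exact_mod_cast hX
  have hx0' : 0 < x := by linarith
  have hll : 0 < Real.log x := Real.log_pos hx0
  have h2r : 1 / (2 : ℝ) ^ r ≤ 32 * (B + 1) / x := by
    rw [div_le_div_iff₀ (by positivity) hx0']; linarith
  have hsX : 0 < √(X : ℝ) := Real.sqrt_pos.mpr hXr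
  have hsq : √(X : ℝ) * √X = X := Real.mul_self_sqrt hXr.le
  have e1 : Cβ * a / 2 ^ r * 2 ^ CD * Real.exp CD * (5 * √X / 2 ^ μ)
      ≤ Cβ * ((CD + 1) * Real.log x) * (32 * (B + 1) / x) * 2 ^ CD * Real.exp CD *
        (5 * √X / (c₀ * x / Real.log x ^ 2)) := by
    have f1 : Cβ * a / 2 ^ r ≤ Cβ * ((CD + 1) * Real.log x) * (32 * (B + 1) / x) := by
      rw [mul_div_assoc, div_eq_mul_one_div (a : ℝ), ← mul_assoc]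
      refine mul_le_mul (mul_le_mul_of_nonneg_left ha hCβ.le) h2r (by positivity) (by positivity)
    have f2 : 5 * √(X : ℝ) / 2 ^ μ ≤ 5 * √X / (c₀ * x / Real.log x ^ 2) :=
      div_le_div_of_nonneg_left (by positivity) (by positivity) hμ
    have f3 : Cβ * a / 2 ^ r * 2 ^ CD * Real.exp CD
        ≤ Cβ * ((CD + 1) * Real.log x) * (32 * (B + 1) / x) * 2 ^ CD * Real.exp CD :=
      mul_le_mul_of_nonneg_right (mul_le_mul_of_nonneg_right f1 (by positivity)) (by positivity)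
    exact mul_le_mul f3 f2 (by positivity) (by positivity)
  have e2 : c₁ / 2 * (Cu * (X / x)) ≤ N *
      (Cβ * ((CD + 1) * Real.log x) * (32 * (B + 1) / x) * 2 ^ CD * Real.exp CD *
        (5 * √X / (c₀ * x / Real.log x ^ 2))) :=
    key.trans (mul_le_mul_of_nonneg_left e1 hN)
  have e3 : c₁ / 2 * Cu * c₀ / (2 ^ CD * Real.exp CD * 5 * Cβ * (CD + 1) * (32 * (B + 1))) * √X * x /
      Real.log x ^ 3 *
      (Cβ * ((CD + 1) * Real.log x) * (32 * (B + 1) / x) * 2 ^ CD * Real.exp CD *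
        (5 * √X / (c₀ * x / Real.log x ^ 2))) = c₁ / 2 * (Cu * (X / x)) := by
    have : √(X : ℝ) ^ 2 = X := by rw [pow_two]; exact hsq
    field_simp
    rw [this]
  have hpos : 0 < Cβ * ((CD + 1) * Real.log x) * (32 * (B + 1) / x) * 2 ^ CD * Real.exp CD *
        (5 * √X / (c₀ * x / Real.log x ^ 2)) := by positivity
  rw [← e3] at e2
  exact le_of_mul_le_mul_right e2 hpos

end Pool.Agent.helper7.JT
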