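import Pool.Agent.helper29.JT.ASM1

/-!
# Project JT (MP_ebc808_nt): the assembly, the counting inequality applied
-/

set_option autoImplicit false

open Finset
open Pool.Agent.Lib.BrunHooley (Z)

namespace Pool.Agent.helper7.JT

open OC (J hs cs PA P5 Exc Hit one_add_J_nonneg one_add_J_le exists_level level_log log_large
  log_div_large eventually_log_pow)

/-- the level of the sieve -/
lemma ASM_level {r a CD B : ℕ} {x : ℝ} (hx : 6 + (64 * ((B : ℝ) + 1) * (CD + 1)) ^ 2 ≤ x)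
    (hr : x ≤ 32 * (B + 1) * 2 ^ r) (ha : (a : ℝ) ≤ CD * Real.log x) :
    (a : ℝ) ≤ (CD + 1) * Real.log x ∧ a ≤ 2 ^ r := by
  have hBpos : (0 : ℝ) ≤ (64 * ((B : ℝ) + 1) * (CD + 1)) ^ 2 := by positivity
  have hx0 : 0 < x := by linarith
  have hll : 0 < Real.log x := Real.log_pos (by linarith)
  have haD : (a : ℝ) ≤ (CD + 1) * Real.log x := ha.trans (by nlinarith)
  refine ⟨haD, ?_⟩
  have hlogsqrt : Real.log x ≤ 2 * √x := by
    have := Real.log_le_sub_one_of_pos (Real.sqrt_pos.mpr hx0)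
    have h2 : Real.log x = 2 * Real.log (√x) := by
      rw [Real.log_sqrt hx0.le]; ring
    rw [h2]; linarith
  have h3 : (64 * ((B : ℝ) + 1) * (CD + 1)) * √x ≤ x := by
    have h4 : 64 * ((B : ℝ) + 1) * (CD + 1) ≤ √x := by
      rw [Real.le_sqrt (by positivity) hx0.le]; linarith
    calc (64 * ((B : ℝ) + 1) * (CD + 1)) * √x ≤ √x * √x :=
          mul_le_mul_of_nonneg_right h4 (Real.sqrt_nonneg _)
      _ = x := Real.mul_self_sqrt hx0.le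
  have h5 : (a : ℝ) ≤ 2 ^ r := by
    have hB0 : (0 : ℝ) < (B : ℝ) + 1 := by positivity
    have h6 : ((CD : ℝ) + 1) * Real.log x ≤ (CD + 1) * (2 * √x) :=
      mul_le_mul_of_nonneg_left hlogsqrt (by positivity)
    have h8 : ((B : ℝ) + 1) * (64 * ((CD + 1) * √x)) ≤ (B + 1) * (32 * 2 ^ r) := by linarith
    have h9 := le_of_mul_le_mul_left h8 hB0
    linarith
  exact_mod_cast h5

/-- the application of the final inequality -/
lemma JData.main_app {X nh CD C₁ h₀ : ℕ} {c₀ c₁ Cu β : ℝ} (hc₁ : 0 < c₁) (hCu : 1 ≤ Cu)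
    (hβ : 0 ≤ β) (d : JData X nh 3 (h₀ + 1) CD C₁ c₀ (c₁ / 4)) (dsh : Fin nh → ℕ)
    (hd : ∀ h, 1 ≤ dsh h ∧ dsh h ≤ h₀) (hX : 2 ^ 16 ≤ X) (hXh : 8 * (2 * h₀ + 2) ≤ X)
    (hx : 6 ≤ Real.log X) (h8 : 3 ^ 8 * (Real.log X) ^ 8 ≤ X) (i c c' r : ℕ) (hi : i + 3 ≤ 2 * d.μ)
    (har : d.a ≤ 2 ^ r) (hr : 2 ^ 2 ^ r ≤ X) (hc' : h₀ ≤ c') (hcc : c' % 2 ^ i = c % 2 ^ i)
    (bT : (Fin d.n → Finset ℕ) → ℕ)
    (hbT : ∀ T ∈ Famj d.L₀ d.K₀, mdj d.𝒟 T * 5 * bT T ≡ 8 * (c' - h₀) + (4 ^ d.μ - 1) / 3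
      [MOD 2 ^ (i + 3)])
    (hs : ∀ n : ℕ, h₀ + 1 ≤ n → -2 ≤ cs (PA (2 ^ d.a) (2 ^ 2 ^ r)) (24 * (n - h₀) - 1) →
      ∀ T ∈ Famj d.L₀ d.K₀, ∀ T' ∈ Famj d.L₁ d.K₁,
      (((Icc 1 (Nat.sqrt (25 * X) / 2 ^ d.μ)).filter fun y : ℕ =>
      ∃ w ∈ OmJ X (mdj d.𝒟 T) (2 ^ (i + 3)) (bT T)
          (fun p : Fin nh × Fin (d.n + 1) => dsh p.1) T',
        3 * ((mdj d.𝒟 T : ℤ) * (w : ℤ)) =
        (24 * ((n : ℤ) - h₀) - 1) + (2 ^ d.μ * (y : ℤ)) ^ 2).card : ℝ)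
      ≤ β * (∏ ℓ ∈ unj d.𝒟 T T',
          (1 + J ℓ (24 * (n - h₀ + sfj (fun p : Fin nh × Fin (d.n + 1) => dsh p.1) d.L₁ ℓ) - 1))) *
        (((Nat.sqrt (25 * X) / 2 ^ d.μ : ℕ) : ℝ) / ∏ ℓ ∈ unj d.𝒟 T T', (ℓ : ℝ)))
    (hu : ∀ T ∈ Famj d.L₀ d.K₀, ∀ T' ∈ Famj d.L₁ d.K₁,
      ((OmJ X (mdj d.𝒟 T) (2 ^ (i + 3)) (bT T) (fun p => dsh p.1) T').card : ℝ) ≤
        Cu * (X / Real.log X) / (mdj d.𝒟 T * prj T'))
    (hl : c₁ * (Cu * (X / Real.log X)) *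
        (EMj d.L₀ d.K₀ * EMj d.L₁ d.K₁ / ∏ ℓ ∈ d.𝒟, (ℓ : ℝ)) ≤
      ∑ T ∈ Famj d.L₀ d.K₀, ∑ T' ∈ Famj d.L₁ d.K₁,
        ((OmJ X (mdj d.𝒟 T) (2 ^ (i + 3)) (bT T) (fun p => dsh p.1) T').card : ℝ)) :
    c₁ / 2 * (Cu * (X / Real.log X)) ≤
      (((range (X + 1)).filter fun n => n % 2 ^ i = c % 2 ^ i ∧ PJ h₀ dsh n = 1).card : ℝ) *
        (β * 2 ^ CD * Real.exp CD * (5 * √X / 2 ^ d.μ)) := by
  have hX0 : 0 < X := lt_of_lt_of_le (by norm_num) hX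
  have hXr : (0 : ℝ) < X := by exact_mod_cast hX0
  have hx0 : 0 < Real.log X := by linarith
  set O' := (range (X + 1)).filter fun n => n % 2 ^ i = c % 2 ^ i ∧ PJ h₀ dsh n = 1 with hO'
  set O := O'.filter fun n => n + h₀ ≤ X with hO
  have hOO : (O.card : ℝ) ≤ O'.card := by exact_mod_cast card_filter_le _ _
  have hXx : (0 : ℝ) < X / Real.log X := by positivity
  have key := jcore_final hc₁ d dsh h₀
    (fun T T' => OmJ X (mdj d.𝒟 T) (2 ^ (i + 3)) (bT T) (fun p => dsh p.1) T') O β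
    (Cu * (X / Real.log X)) hβ (by linarith) (by nlinarith)
    (fun T hT T' hT' => by
      have := d.md_mul_le hx h8 hT hT' 1 (by rw [one_pow]; exact hX0)
      rwa [one_mul] at this)
    (fun T hT T' hT' w hw => (mem_OmJ.1 hw).2)
    (fun T hT T' hT' w hw =>
      (d.cover_joint dsh h₀ hd hX hXh i _ _ hi hc' hT hT' (hbT T hT) hw).1)
    le_rfl
    (fun T hT T' hT' w hw => by
      obtain ⟨n, ⟨hn1, hn2⟩, hnX, hit⟩ :=
        (d.cover_joint dsh h₀ hd hX hXh i _ _ hi hc' hT hT' (hbT T hT) hw).2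
      refine ⟨n, Or.inl ?_, fun h => by have := (hd h).2; omega, by omega, hit⟩
      rw [hO, mem_filter, hO', mem_filter, mem_range]
      exact ⟨⟨by omega, by rw [hn1, hcc], hn2⟩, hnX⟩)
    (fun n hn => by
      rw [hO, mem_filter] at hn
      exact ⟨by omega, fun h => by have := (hd h).2; omega⟩)
    (fun n hn hn1 hcs T hT T' hT' => by
      refine le_trans (le_of_eq ?_) (hs n hn1 (hcs r har hr) T hT T' hT')
      congr!)
    hu hl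
  exact key.trans (mul_le_mul_of_nonneg_right hOO (by positivity))

end Pool.Agent.helper7.JT
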